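import Pool.Agent.Helper71.ST.Defs

/-!
# Project ST (MP_a499ba_nt), block I: the integrals of `EE`
-/

set_option autoImplicit false

namespace Pool.Agent.Helper66.ST

open MeasureTheory Filter Topology Pool.Agent.Helper99.MS Pool.Agent.Helper71.ST

theorem XX_neg {u : ℝ} (hu : 0 ≤ u) (hu2 : u ≤ 2) : XX (-u) ≤ -(u ^ 2 / 4) := by
  have h1 : 1 - u / 2 ≤ Real.exp (-(u / 2)) := by linarith [Real.add_one_le_exp (-(u / 2))]
  have h2 : Real.exp (-u) = Real.exp (-(u / 2)) * Real.exp (-(u / 2)) := by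
    rw [← Real.exp_add]
    congr 1
    ring
  have h3 : (1 - u / 2) * (1 - u / 2) ≤ Real.exp (-(u / 2)) * Real.exp (-(u / 2)) :=
    mul_le_mul h1 h1 (by linarith) (Real.exp_pos _).le
  unfold XX
  rw [h2]
  nlinarith

theorem XX_r {r s : ℝ} (hr : 0 < r) (hr1 : r ≤ 1) (hs : r ≤ |s|) : XX s ≤ -(r ^ 2 / 4) := by
  rcases le_or_gt 0 s with h | h
  · rw [abs_of_nonneg h] at hs
    have := XX_le_sq_pos h
    nlinarith
  · rw [abs_of_neg h] at hs
    rcases le_or_gt (-s) 2 with h2 | h2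
    · have := XX_neg (by linarith : 0 ≤ -s) h2
      rw [neg_neg] at this
      nlinarith
    · have := XX_le s
      nlinarith

theorem XX_ρ {ρ s : ℝ} (hρ : 1 ≤ ρ) (hs : ρ ≤ |s|) : XX s ≤ -(ρ / 4) := by
  rcases le_or_gt 0 s with h | h
  · rw [abs_of_nonneg h] at hs
    have := XX_le_sq_pos h
    nlinarith
  · rw [abs_of_neg h] at hs
    rcases le_or_gt (-s) 2 with h2 | h2
    · have := XX_neg (by linarith : 0 ≤ -s) h2
      rw [neg_neg] at this
      nlinarith
    · have := XX_le s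
      nlinarith

theorem XX_abs (s : ℝ) : XX s ≤ 1 - |s| := by
  rcases le_or_gt 0 s with h | h
  · rw [abs_of_nonneg h]
    have := Real.quadratic_le_exp_of_nonneg h
    unfold XX
    nlinarith [sq_nonneg (s - 1)]
  · rw [abs_of_neg h]
    have := XX_le s
    linarith

theorem EE_four (s : ℝ) : EE 4 s ≤ Real.exp 4 * Real.exp (-(4 * |s|)) := by
  unfold EE
  rw [← Real.exp_add]
  apply Real.exp_le_exp.2
  linarith [XX_abs s]

theorem EE_split {m : ℝ} (s c : ℝ) (hm : 4 ≤ m) (h : XX s ≤ -c) :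
    EE m s ≤ Real.exp 4 * Real.exp (-(4 * |s|)) * Real.exp (-((m - 4) * c)) := by
  have h1 : EE m s = EE 4 s * EE (m - 4) s := by
    rw [← EE_add]
    congr 1
    ring
  rw [h1]
  apply mul_le_mul (EE_four s) _ (EE_pos _ _).le (by positivity)
  unfold EE
  apply Real.exp_le_exp.2
  nlinarith

theorem EE_pt {m r : ℝ} (hm : 4 ≤ m) (hr : 0 < r) (hr1 : r ≤ 1) {s : ℝ} (hs : r ≤ |s|) :
    EE m s ≤ Real.exp 4 * Real.exp (-(4 * |s|)) * Real.exp (-((m - 4) * r ^ 2 / 4)) := by
  have := EE_split s (r ^ 2 / 4) hm (XX_r hr hr1 hs)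
  rwa [← mul_div_assoc] at this

theorem EE_pt' {m ρ : ℝ} (hm : 4 ≤ m) (hρ : 1 ≤ ρ) {s : ℝ} (hs : ρ ≤ |s|) :
    EE m s ≤ Real.exp 4 * Real.exp (-(4 * |s|)) * Real.exp (-((m - 4) * ρ / 4)) := by
  have := EE_split s (ρ / 4) hm (XX_ρ hρ hs)
  rwa [← mul_div_assoc] at this

theorem two_int : Integrable (fun s : ℝ => Real.exp (-2 * |s|)) :=
  Pool.Agent.Helper13.Mob.integrable_exp_abs (by norm_num)

theorem two_val : ∫ s : ℝ, Real.exp (-2 * |s|) = 1 := by
  rw [integral_comp_abs (f := fun x => Real.exp (-2 * x)), integral_exp_mul_Ioi (by norm_num)]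
  norm_num

theorem EE_le_abs {m : ℝ} (hm : 4 ≤ m) (s : ℝ) : Real.exp (2 * |s|) * EE m s ≤ Real.exp 4 * Real.exp (-2 * |s|) := by
  have h1 : EE m s ≤ Real.exp 4 * Real.exp (-(4 * |s|)) := (EE_anti hm s).trans (EE_four s)
  calc Real.exp (2 * |s|) * EE m s ≤ Real.exp (2 * |s|) * (Real.exp 4 * Real.exp (-(4 * |s|))) :=
        mul_le_mul_of_nonneg_left h1 (Real.exp_pos _).le
    _ = Real.exp 4 * Real.exp (-2 * |s|) := by
        rw [mul_left_comm, ← Real.exp_add]
        congr 2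
        ring

theorem EE_int {m : ℝ} (hm : 4 ≤ m) : Integrable (fun s => Real.exp (2 * |s|) * EE m s) := by
  refine Integrable.mono' (two_int.const_mul (Real.exp 4)) ?_ ?_
  · apply Continuous.aestronglyMeasurable
    exact (by fun_prop : Continuous fun s : ℝ => Real.exp (2 * |s|)).mul (EE_cont m)
  · apply Filter.Eventually.of_forall
    intro s
    rw [Real.norm_of_nonneg (mul_nonneg (Real.exp_pos _).le (EE_pos _ _).le)]
    exact EE_le_abs hm s

theorem EE_int0 {m : ℝ} (hm : 4 ≤ m) : Integrable (EE m) := by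
  refine Integrable.mono' (EE_int hm) (EE_cont m).aestronglyMeasurable ?_
  apply Filter.Eventually.of_forall
  intro s
  rw [Real.norm_of_nonneg (EE_pos _ _).le]
  have h1 : 1 ≤ Real.exp (2 * |s|) := Real.one_le_exp (by positivity)
  exact le_mul_of_one_le_left (EE_pos _ _).le h1

theorem I0_nonneg (m : ℝ) : 0 ≤ I0 m := integral_nonneg fun s => (EE_pos m s).le

theorem I0_ge {m : ℝ} (hm : 4 ≤ m) : 1 / (2 * √m) ≤ I0 m := by
  have hm0 : 0 < m := by linarith
  have hsm : 2 ≤ √m := by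
    apply Real.le_sqrt_of_sq_le
    linarith
  have hs0 : 0 < √m := by linarith
  set a : ℝ := 1 / √m with ha
  have ha0 : 0 < a := by positivity
  have ha1 : a ≤ 1 := by
    rw [ha, div_le_one hs0]
    linarith
  have hsub : ∫ s in Set.Icc (-a) a, EE m s ≤ I0 m :=
    setIntegral_le_integral (EE_int0 hm) (Filter.Eventually.of_forall fun s => (EE_pos m s).le)
  have hlow : ∫ s in Set.Icc (-a) a, Real.exp (-1) ≤ ∫ s in Set.Icc (-a) a, EE m s := by
    apply setIntegral_mono_on
    · exact integrableOn_const (by rw [Real.volume_Icc]; exact ENNReal.ofReal_ne_top)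
    · exact (EE_int0 hm).integrableOn
    · exact measurableSet_Icc
    · intro s hs
      have h1 : |s| ≤ a := abs_le.2 hs
      have h2 := XX_ge_sq (h1.trans ha1)
      unfold EE
      apply Real.exp_le_exp.2
      have h3 : s ^ 2 ≤ a ^ 2 := by
        rw [← sq_abs s]
        exact pow_le_pow_left₀ (abs_nonneg s) h1 2
      have h4 : m * a ^ 2 = 1 := by
        rw [ha, div_pow, one_pow, Real.sq_sqrt hm0.le]
        field_simp
      nlinarith
  rw [setIntegral_const, Real.volume_real_Icc, max_eq_left (by linarith), smul_eq_mul] at hlow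
  refine le_trans ?_ (hlow.trans hsub)
  have he : 1 / 4 ≤ Real.exp (-1) := by
    rw [Real.exp_neg, inv_eq_one_div]
    apply one_div_le_one_div_of_le (Real.exp_pos _)
    have := Real.exp_one_lt_d9
    linarith
  have h5 : 1 / (2 * √m) = (a - -a) * (1 / 4) := by
    rw [ha]
    ring
  rw [h5]
  exact mul_le_mul_of_nonneg_left he (by linarith)

theorem exp4_le : Real.exp 4 ≤ 60 := by
  have := Real.exp_one_lt_d9
  calc Real.exp 4 = Real.exp 1 ^ 4 := by rw [← Real.exp_nat_mul]; norm_num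
    _ ≤ (2.7182818286 : ℝ) ^ 4 := pow_le_pow_left₀ (Real.exp_pos _).le this.le 4
    _ ≤ 60 := by norm_num

theorem tail_gen {m c r : ℝ} (hm : 4 ≤ m) (h : ∀ s, r ≤ |s| → XX s ≤ -c) :
    ∫ s in {s : ℝ | r < |s|}, Real.exp (2 * |s|) * EE m s ≤ 60 * Real.exp (-((m - 4) * c)) := by
  have hmeas : MeasurableSet {s : ℝ | r < |s|} := (isOpen_lt continuous_const continuous_abs).measurableSet
  have h1 : ∫ s in {s : ℝ | r < |s|}, Real.exp (2 * |s|) * EE m s ≤
      ∫ s in {s : ℝ | r < |s|}, (Real.exp 4 * Real.exp (-((m - 4) * c))) * Real.exp (-2 * |s|) := by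
    apply setIntegral_mono_on (EE_int hm).integrableOn (two_int.const_mul _).integrableOn hmeas
    intro s hs
    have h2 := EE_split s c hm (h s (le_of_lt hs))
    calc Real.exp (2 * |s|) * EE m s ≤ Real.exp (2 * |s|) * (Real.exp 4 * Real.exp (-(4 * |s|)) * Real.exp (-((m - 4) * c))) :=
          mul_le_mul_of_nonneg_left h2 (Real.exp_pos _).le
      _ = (Real.exp 4 * Real.exp (-((m - 4) * c))) * (Real.exp (2 * |s|) * Real.exp (-(4 * |s|))) := by ring
      _ = _ := by
          rw [← Real.exp_add (2 * |s|)]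
          congr 2
          ring
  refine h1.trans ((setIntegral_le_integral (two_int.const_mul _) (Filter.Eventually.of_forall fun s => ?_)).trans ?_)
  · positivity
  · rw [integral_const_mul, two_val, mul_one]
    exact mul_le_mul_of_nonneg_right exp4_le (Real.exp_pos _).le

theorem EE_tail {m r : ℝ} (hm : 4 ≤ m) (hr : 0 < r) (hr1 : r ≤ 1) :
    ∫ s in {s : ℝ | r < |s|}, Real.exp (2 * |s|) * EE m s ≤ 60 * Real.exp (-((m - 4) * r ^ 2 / 4)) := by
  have := tail_gen (m := m) (c := r ^ 2 / 4) (r := r) hm fun s hs => XX_r hr hr1 hs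
  rwa [← mul_div_assoc] at this

theorem EE_tail' {m ρ : ℝ} (hm : 4 ≤ m) (hρ : 1 ≤ ρ) :
    ∫ s in {s : ℝ | ρ < |s|}, Real.exp (2 * |s|) * EE m s ≤ 60 * Real.exp (-((m - 4) * ρ / 4)) := by
  have := tail_gen (m := m) (c := ρ / 4) (r := ρ) hm fun s hs => XX_ρ hρ hs
  rwa [← mul_div_assoc] at this

theorem tail_small {m : ℝ} (hm : 64 ≤ m) : 60 * Real.exp (-((m - 4) * 1 ^ 2 / 4)) ≤ 1 / 4 * I0 m := by
  have hm0 : 0 < m := by linarith
  have hsm : 8 ≤ √m := by
    apply Real.le_sqrt_of_sq_le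
    linarith
  have hs0 : 0 < √m := by linarith
  have hI := I0_ge (by linarith : 4 ≤ m)
  have h1 : 480 * √m ≤ Real.exp ((m - 4) / 4) := by
    have h2 : (32768 : ℝ) ≤ Real.exp 15 := by
      have h3 : (2 : ℝ) ≤ Real.exp 1 := by
        have := Real.add_one_le_exp (1 : ℝ)
        linarith
      calc (32768 : ℝ) = 2 ^ 15 := by norm_num
        _ ≤ Real.exp 1 ^ 15 := pow_le_pow_left₀ (by norm_num) h3 15
        _ = Real.exp 15 := by rw [← Real.exp_nat_mul]; norm_num
    have h4 : 1 + (m - 64) / 4 ≤ Real.exp ((m - 64) / 4) := by linarith [Real.add_one_le_exp ((m - 64) / 4)]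
    have h5 : Real.exp ((m - 4) / 4) = Real.exp 15 * Real.exp ((m - 64) / 4) := by
      rw [← Real.exp_add]
      congr 1
      ring
    have h6 : √m ≤ m / 8 := by
      rw [le_div_iff₀ (by norm_num)]
      have := Real.mul_self_sqrt hm0.le
      nlinarith
    rw [h5]
    calc 480 * √m ≤ 32768 * (1 + (m - 64) / 4) := by linarith
      _ ≤ Real.exp 15 * Real.exp ((m - 64) / 4) := mul_le_mul h2 h4 (by linarith) (Real.exp_pos _).le
  have h7 : 60 * Real.exp (-((m - 4) * 1 ^ 2 / 4)) ≤ 1 / (8 * √m) := by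
    rw [le_div_iff₀ (by positivity)]
    have h8 : Real.exp (-((m - 4) * 1 ^ 2 / 4)) * Real.exp ((m - 4) / 4) = 1 := by
      rw [← Real.exp_add]
      ring_nf
      exact Real.exp_zero
    calc 60 * Real.exp (-((m - 4) * 1 ^ 2 / 4)) * (8 * √m) = Real.exp (-((m - 4) * 1 ^ 2 / 4)) * (480 * √m) := by ring
      _ ≤ Real.exp (-((m - 4) * 1 ^ 2 / 4)) * Real.exp ((m - 4) / 4) := mul_le_mul_of_nonneg_left h1 (Real.exp_pos _).le
      _ = 1 := h8
  have h9 : 1 / (8 * √m) = 1 / 4 * (1 / (2 * √m)) := by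
    field_simp
    norm_num
  rw [h9] at h7
  exact h7.trans (mul_le_mul_of_nonneg_left hI (by norm_num))

/-- an integral with a weight bounded by `c` near `0` and by `e^{2|s|}` everywhere -/
theorem weight {m c : ℝ} (hm : 64 ≤ m) (hc : 0 ≤ c) {w : ℝ → ℝ} (hw : Continuous w) (h0 : ∀ s, 0 ≤ w s)
    (h1 : ∀ s, |s| ≤ 1 → w s ≤ c) (h2 : ∀ s, w s ≤ Real.exp (2 * |s|)) :
    ∫ s, w s * EE m s ≤ (c + 1 / 4) * I0 m := by
  have hm4 : 4 ≤ m := by linarith
  have hwi : Integrable fun s => w s * EE m s := by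
    refine Integrable.mono' (EE_int hm4) (hw.mul (EE_cont m)).aestronglyMeasurable ?_
    apply Filter.Eventually.of_forall
    intro s
    rw [Real.norm_of_nonneg (mul_nonneg (h0 s) (EE_pos _ _).le)]
    exact mul_le_mul_of_nonneg_right (h2 s) (EE_pos _ _).le
  have hmeas : MeasurableSet {s : ℝ | 1 < |s|} := (isOpen_lt continuous_const continuous_abs).measurableSet
  have hsplit := integral_add_compl hmeas hwi
  have ha : ∫ s in {s : ℝ | 1 < |s|}, w s * EE m s ≤ 1 / 4 * I0 m := by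
    refine le_trans ?_ ((EE_tail hm4 one_pos le_rfl).trans (tail_small hm))
    apply setIntegral_mono_on hwi.integrableOn (EE_int hm4).integrableOn hmeas
    intro s _
    exact mul_le_mul_of_nonneg_right (h2 s) (EE_pos _ _).le
  have hb : ∫ s in {s : ℝ | 1 < |s|}ᶜ, w s * EE m s ≤ c * I0 m := by
    have hb1 : ∫ s in {s : ℝ | 1 < |s|}ᶜ, w s * EE m s ≤ ∫ s in {s : ℝ | 1 < |s|}ᶜ, c * EE m s := by
      apply setIntegral_mono_on hwi.integrableOn ((EE_int0 hm4).const_mul c).integrableOn hmeas.compl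
      intro s hs
      exact mul_le_mul_of_nonneg_right (h1 s (not_lt.1 hs)) (EE_pos _ _).le
    refine hb1.trans ((setIntegral_le_integral ((EE_int0 hm4).const_mul c) (Filter.Eventually.of_forall fun s => ?_)).trans ?_)
    · exact mul_nonneg hc (EE_pos _ _).le
    · rw [integral_const_mul]
      rfl
  rw [← hsplit]
  linarith

theorem EE_half {m : ℝ} (hm : 64 ≤ m) : ∫ s, Real.exp (-(s / 2)) * EE m s ≤ 2 * I0 m := by
  have hI := I0_nonneg m
  have hc : Real.exp (1 / 2) ≤ 7 / 4 := by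
    have h1 : Real.exp (1 / 2) * Real.exp (1 / 2) = Real.exp 1 := by
      rw [← Real.exp_add]
      norm_num
    have h2 := Real.exp_one_lt_d9
    have h3 := Real.exp_pos (1 / 2 : ℝ)
    by_contra h4
    push Not at h4
    nlinarith
  have := weight (w := fun s => Real.exp (-(s / 2))) (c := Real.exp (1 / 2)) hm (Real.exp_pos _).le (by fun_prop)
    (fun s => (Real.exp_pos _).le) (fun s hs => Real.exp_le_exp.2 (by linarith [(abs_le.1 hs).1]))
    (fun s => Real.exp_le_exp.2 (by linarith [neg_abs_le s, abs_nonneg s]))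
  refine this.trans ?_
  apply mul_le_mul_of_nonneg_right _ hI
  linarith

theorem EE_one {m : ℝ} (hm : 64 ≤ m) : ∫ s, Real.exp |s| * EE m s ≤ 3 * I0 m := by
  have hI := I0_nonneg m
  have h2 := Real.exp_one_lt_d9
  have := weight (w := fun s => Real.exp |s|) (c := Real.exp 1) hm (Real.exp_pos _).le (by fun_prop)
    (fun s => (Real.exp_pos _).le) (fun s hs => Real.exp_le_exp.2 hs)
    (fun s => Real.exp_le_exp.2 (by linarith [abs_nonneg s]))
  refine this.trans ?_
  apply mul_le_mul_of_nonneg_right _ hI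
  linarith

theorem EE_osc {m r t : ℝ} (hm : 4 ≤ m) (hr : 0 < r) :
    ‖(∫ s in {s : ℝ | |s| ≤ r}, Complex.exp ((t * s : ℝ) * Complex.I) * (EE m s : ℂ)) - ((∫ s in {s : ℝ | |s| ≤ r}, EE m s : ℝ) : ℂ)‖ ≤
      |t| * r * I0 m := by
  have hmeas : MeasurableSet {s : ℝ | |s| ≤ r} := (isClosed_le continuous_abs continuous_const).measurableSet
  have hi1 : Integrable fun s : ℝ => Complex.exp ((t * s : ℝ) * Complex.I) * (EE m s : ℂ) := by
    refine Integrable.mono' (EE_int0 hm) ?_ ?_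
    · apply Continuous.aestronglyMeasurable
      exact (by fun_prop : Continuous fun s : ℝ => Complex.exp ((t * s : ℝ) * Complex.I)).mul
        (Complex.continuous_ofReal.comp (EE_cont m))
    · apply Filter.Eventually.of_forall
      intro s
      rw [norm_mul, Complex.norm_exp_ofReal_mul_I, one_mul, Complex.norm_real, Real.norm_of_nonneg (EE_pos _ _).le]
  have hi2 : Integrable fun s : ℝ => (EE m s : ℂ) := (EE_int0 hm).ofReal
  rw [← integral_complex_ofReal, ← integral_sub hi1.integrableOn hi2.integrableOn]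
  have hb : ∀ s ∈ {s : ℝ | |s| ≤ r}, ‖Complex.exp ((t * s : ℝ) * Complex.I) * (EE m s : ℂ) - (EE m s : ℂ)‖ ≤ |t| * r * EE m s := by
    intro s hs
    have e : Complex.exp ((t * s : ℝ) * Complex.I) * (EE m s : ℂ) - (EE m s : ℂ) =
        (Complex.exp ((t * s : ℝ) * Complex.I) - 1) * (EE m s : ℂ) := by ring
    rw [e, norm_mul, Complex.norm_real, Real.norm_of_nonneg (EE_pos _ _).le]
    apply mul_le_mul_of_nonneg_right _ (EE_pos _ _).le
    have h1 : ‖Complex.exp ((t * s : ℝ) * Complex.I) - 1‖ ≤ |t * s| := by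
      have := Real.norm_exp_I_mul_ofReal_sub_one_le (x := t * s)
      rwa [mul_comm Complex.I, Real.norm_eq_abs] at this
    refine h1.trans ?_
    rw [abs_mul]
    exact mul_le_mul_of_nonneg_left hs (abs_nonneg _)
  refine (norm_integral_le_integral_norm _).trans ?_
  have h3 : ∫ s in {s : ℝ | |s| ≤ r}, ‖Complex.exp ((t * s : ℝ) * Complex.I) * (EE m s : ℂ) - (EE m s : ℂ)‖ ≤
      ∫ s in {s : ℝ | |s| ≤ r}, |t| * r * EE m s := by
    apply setIntegral_mono_on (hi1.sub hi2).norm.integrableOn ((EE_int0 hm).const_mul _).integrableOn hmeas hb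
  refine h3.trans ((setIntegral_le_integral ((EE_int0 hm).const_mul _) (Filter.Eventually.of_forall fun s => ?_)).trans ?_)
  · exact mul_nonneg (by positivity) (EE_pos _ _).le
  · rw [integral_const_mul]
    rfl

end Pool.Agent.Helper66.ST
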