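import Pool.Agent.Helper71.ST.Defs

/-!
# Project ST (MP_a499ba_nt), block R: recurrence of the average with a complex kernel of width `R`
-/

set_option autoImplicit false

namespace Pool.Agent.Helper66.ST

open MeasureTheory Filter Topology Pool.Agent.Helper99.MS Pool.Agent.Helper71.ST
open Pool.Agent.Helper96.EQ (pigeon' cC2_nonneg gg_bd')

theorem ell_mono {x y : ℝ} (h : |x| ≤ |y|) : ell x ≤ ell y := by
  unfold ell
  have := Real.log_le_log (show (0:ℝ) < 1 + |x| by linarith [abs_nonneg x]) (show 1 + |x| ≤ 1 + |y| by linarith)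
  linarith

theorem ell_R {R y : ℝ} (hR : 1 ≤ R) (hy : ¬ R < |y|) : ell y ≤ ell R := by
  apply ell_mono
  rw [abs_of_pos (by linarith : 0 < R)]
  exact not_lt.1 hy

section swap

variable {f : ℝ → ℂ} {g : ℝ → ℂ} {C L R : ℝ}

theorem bound_pt (hR : 1 ≤ R) (hs : ∀ y, R < |y| → f y = 0) (hC : ∀ v, ‖g v‖ ≤ C * ell v) (hC0 : 0 ≤ C)
    (hL : 0 < L) (u v y : ℝ) :
    ‖f y * g (v + u + y) * (KL L v : ℂ)‖ ≤
      ‖f y‖ * ((ell R * C * ell u) * (ell v * KL L v)) := by
  have hK := KL_nonneg hL v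
  have hu := ell_nonneg u
  have hv := ell_nonneg v
  rw [norm_mul, norm_mul, Complex.norm_real, Real.norm_of_nonneg hK]
  by_cases hy : R < |y|
  · rw [hs y hy]
    simp
  · have hy1 := ell_R hR hy
    have h1 : ell (v + u + y) ≤ ell v * ell u * ell R := by
      refine (ell_add (v + u) y).trans ?_
      apply mul_le_mul (ell_add v u) hy1 (ell_nonneg y) (by positivity)
    calc ‖f y‖ * ‖g (v + u + y)‖ * KL L v ≤ ‖f y‖ * (C * (ell v * ell u * ell R)) * KL L v := by
          apply mul_le_mul_of_nonneg_right _ hK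
          apply mul_le_mul_of_nonneg_left _ (norm_nonneg _)
          exact (hC _).trans (mul_le_mul_of_nonneg_left h1 hC0)
      _ = _ := by ring

theorem prod_int (hf : Integrable f) (hR : 1 ≤ R) (hs : ∀ y, R < |y| → f y = 0) (hg : Continuous g)
    (hC : ∀ v, ‖g v‖ ≤ C * ell v) (hC0 : 0 ≤ C) (hL : 0 < L) (u : ℝ) :
    Integrable (fun p : ℝ × ℝ => f p.2 * g (p.1 + u + p.2) * (KL L p.1 : ℂ))
      (volume.prod volume) := by
  have h1 : Integrable (fun p : ℝ × ℝ => (ell R * C * ell u) * (ell p.1 * KL L p.1) * ‖f p.2‖)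
      (volume.prod volume) :=
    ((ell_KL_int hL).const_mul (ell R * C * ell u)).mul_prod hf.norm
  refine Integrable.mono' h1 ?_ ?_
  · apply AEStronglyMeasurable.mul
    · apply AEStronglyMeasurable.mul
      · exact hf.1.comp_snd
      · exact (hg.comp (by fun_prop)).aestronglyMeasurable
    · exact (Complex.continuous_ofReal.comp_aestronglyMeasurable (KL_meas (L := L))).comp_fst
  · apply Filter.Eventually.of_forall
    rintro ⟨v, y⟩
    have := bound_pt hR hs hC hC0 hL u v y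
    simp only
    linarith

/-- Fubini for the Fejer smoothing of an average. -/
theorem Tc_swap (hf : Integrable f) (hR : 1 ≤ R) (hs : ∀ y, R < |y| → f y = 0) (hg : Continuous g)
    (hC : ∀ v, ‖g v‖ ≤ C * ell v) (hC0 : 0 ≤ C) (hL : 0 < L) (u : ℝ) :
    ∫ v, Tc f g (v + u) * (KL L v : ℂ) = ∫ y, f y * ∫ v, g (v + (u + y)) * (KL L v : ℂ) := by
  have h1 : ∀ v, Tc f g (v + u) * (KL L v : ℂ) =
      ∫ y, f y * g (v + u + y) * (KL L v : ℂ) := by
    intro v
    unfold Tc
    rw [integral_mul_const]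
  simp_rw [h1]
  rw [integral_integral_swap (prod_int hf hR hs hg hC hC0 hL u)]
  apply integral_congr_ae
  apply Filter.Eventually.of_forall
  intro y
  simp only
  rw [← integral_const_mul]
  apply integral_congr_ae
  apply Filter.Eventually.of_forall
  intro v
  simp only
  rw [add_assoc, mul_assoc]

theorem exp_int (hf : Integrable f) (γ : ℝ) :
    Integrable (fun y => f y * Complex.exp (γ * y * Complex.I)) := by
  refine Integrable.mono' hf.norm ?_ ?_
  · apply AEStronglyMeasurable.mul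
    · exact hf.1
    · exact Continuous.aestronglyMeasurable (by fun_prop)
  · apply Filter.Eventually.of_forall
    intro y
    rw [norm_mul, show (γ : ℂ) * y * Complex.I =
      ((γ * y : ℝ) : ℂ) * Complex.I by push_cast; ring, Complex.norm_exp_ofReal_mul_I, mul_one]

/-- Size of the Fejer smoothing of an average. -/
theorem sup_Tc (hf : Integrable f) (hR : 1 ≤ R) (hs : ∀ y, R < |y| → f y = 0) (hg : Continuous g)
    (hC : ∀ v, ‖g v‖ ≤ C * ell v) (hC0 : 0 ≤ C) (hL : 0 < L) (u : ℝ) :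
    ‖∫ v, Tc f g (v + u) * (KL L v : ℂ)‖ ≤
      ell R * (∫ y, ‖f y‖) * (C * ell u * ∫ v, ell v * KL L v) := by
  rw [Tc_swap hf hR hs hg hC hC0 hL u]
  have hI : 0 ≤ ∫ v, ell v * KL L v :=
    integral_nonneg fun v => mul_nonneg (ell_nonneg v) (KL_nonneg hL v)
  have hu := ell_nonneg u
  have hR0 := ell_nonneg R
  calc ‖∫ y, f y * ∫ v, g (v + (u + y)) * (KL L v : ℂ)‖
      ≤ ∫ y, ‖f y‖ * (ell R * (C * ell u * ∫ v, ell v * KL L v)) := by
        apply norm_integral_le_of_norm_le (hf.norm.mul_const _)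
        apply Filter.Eventually.of_forall
        intro y
        rw [norm_mul]
        by_cases hy : R < |y|
        · rw [hs y hy]
          simp
        · apply mul_le_mul_of_nonneg_left _ (norm_nonneg _)
          refine (sup_P hC hC0 hL (u + y)).trans ?_
          have h1 : ell (u + y) ≤ ell u * ell R :=
            (ell_add u y).trans (mul_le_mul_of_nonneg_left (ell_R hR hy) hu)
          calc C * ell (u + y) * ∫ v, ell v * KL L v
              ≤ C * (ell u * ell R) * ∫ v, ell v * KL L v := by gcongr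
            _ = _ := by ring
    _ = _ := by
        rw [integral_mul_const]
        ring

end swap

section spectrum

variable {f : ℝ → ℂ} {B R : ℝ} {k : ℕ}

/-- R1: the spectrum of the average. -/
theorem R1 (h : GB (ff mr) B) (hk : 2 ≤ k) {L : ℝ} (hL : 0 < L) (hR : 1 ≤ R) (hf : Integrable f)
    (hs : ∀ y, R < |y| → f y = 0) :
    ∃ b : ℝ → ℂ, ∀ u, ∫ v, Tc f (gg (4 * k)) (v + u) * (KL L v : ℂ) =
      ∑ γ ∈ ZL L, b γ * Complex.exp (γ * u * Complex.I) := by
  have hB := h.nonneg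
  obtain ⟨b, hb⟩ := gg_repr h hk hL
  refine ⟨fun γ => b γ * ∫ y, f y * Complex.exp (γ * y * Complex.I), fun u => ?_⟩
  rw [Tc_swap hf hR hs (gg_cont h (by omega)) (gg_bd' h hk)
    (cC2_nonneg hB (Nat.cast_nonneg _)) hL u]
  have h1 : ∀ y : ℝ, f y * ∫ v, gg (4 * k) (v + (u + y)) * (KL L v : ℂ) =
      ∑ γ ∈ ZL L, (b γ * Complex.exp (γ * u * Complex.I)) *
        (f y * Complex.exp (γ * y * Complex.I)) := by
    intro y
    rw [hb, Finset.mul_sum]
    apply Finset.sum_congr rfl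
    intro γ _
    have e : (γ : ℂ) * ((u + y : ℝ) : ℂ) * Complex.I = γ * u * Complex.I + γ * y * Complex.I := by
      push_cast
      ring
    rw [e, Complex.exp_add]
    ring
  simp_rw [h1]
  rw [integral_finsetSum _ fun γ _ => (exp_int hf γ).const_mul _]
  apply Finset.sum_congr rfl
  intro γ _
  rw [integral_const_mul]
  ring

/-- R2: the size of the average. -/
theorem R2 (h : GB (ff mr) B) (hk : 2 ≤ k) {L : ℝ} (hL : 1 ≤ L) (hR : 1 ≤ R) (hf : Integrable f)
    (hs : ∀ y, R < |y| → f y = 0) {Y : ℝ} (hY : 0 ≤ Y) {u : ℝ} (hu : |u| ≤ 2 * Real.exp Y) :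
    ‖∫ v, Tc f (gg (4 * k)) (v + u) * (KL L v : ℂ)‖ ≤
      ell R * (∫ y, ‖f y‖) * (cC2 B ((4 * k : ℕ) : ℝ) * (Y + 3) * (16 * L * CS)) := by
  have hL0 : 0 < L := by linarith
  have hB := h.nonneg
  have hR0 := ell_nonneg R
  have hc := cC2_nonneg hB (Nat.cast_nonneg (4 * k))
  refine (sup_Tc hf hR hs (gg_cont h (by omega)) (gg_bd' h hk) hc hL0 u).trans ?_
  have hf0 : 0 ≤ ∫ y, ‖f y‖ := integral_nonneg fun y => norm_nonneg _
  have h1 := ell_le_Y hY hu
  have h2 := ell_KL_tot hL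
  have hI : 0 ≤ ∫ v, ell v * KL L v :=
    integral_nonneg fun v => mul_nonneg (ell_nonneg v) (KL_nonneg hL0 v)
  apply mul_le_mul_of_nonneg_left _ (by positivity)
  apply mul_le_mul (mul_le_mul_of_nonneg_left h1 hc) h2 hI (by positivity)

end spectrum

theorem recc {f : ℝ → ℂ} {B : ℝ} {k : ℕ} (h : GB (ff mr) B) (hk : 2 ≤ k) {L R : ℝ} (hL : 1 ≤ L) (hR : 1 ≤ R)
    (hf : Integrable f) (hs : ∀ y, R < |y| → f y = 0) {Y τ ε F : ℝ} (hY : 0 ≤ Y) {J : ℕ}
    (hτ : 0 ≤ τ) (hJτ : J * τ + 1 ≤ Real.exp Y) (hε : 0 < ε) (hF : ∫ y, ‖f y‖ ≤ F)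
    (hc : (1 + 2 * (ell R * F * (cC2 B ((4 * k : ℕ) : ℝ) * (Y + 3) * (16 * L * CS))) / ε) ^
      (2 * (ZL L).card) < J + 1) :
    ∃ n : ℕ, 1 ≤ n ∧ n ≤ J ∧
      ‖(∫ v, Tc f (gg (4 * k)) (v + n * τ) * (KL L v : ℂ)) - ∫ v, Tc f (gg (4 * k)) v * (KL L v : ℂ)‖ < ε := by
  have hL0 : 0 < L := by linarith
  have hB := h.nonneg
  have hCS := CS_nonneg
  have hR0 := ell_nonneg R
  have hcc := cC2_nonneg hB (Nat.cast_nonneg (4 * k))
  have hF0 : 0 ≤ F := (integral_nonneg fun y => norm_nonneg _).trans hF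
  obtain ⟨b, hb⟩ := R1 h hk hL0 hR hf hs
  obtain ⟨n, n1, n2, n3⟩ := pigeon' (ZL L) b (fun u => ∫ v, Tc f (gg (4 * k)) (v + u) * (KL L v : ℂ)) hb J
    (R := Real.exp Y) (T := 1) (S := ell R * F * (cC2 B ((4 * k : ℕ) : ℝ) * (Y + 3) * (16 * L * CS)))
    (by positivity) hε hτ zero_le_one hJτ (fun u hu => by
      refine (R2 h hk hL hR hf hs hY hu).trans ?_
      gcongr) hc
  refine ⟨n, n1, n2, ?_⟩
  have n4 := n3 0 (by simp)
  simpa using n4

theorem tc_bd {f : ℝ → ℂ} {B : ℝ} {k : ℕ} (h : GB (ff mr) B) (hk : 2 ≤ k) {R : ℝ} (hR : 1 ≤ R)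
    (hf : Integrable f) (hs : ∀ y, R < |y| → f y = 0) (v : ℝ) :
    ‖Tc f (gg (4 * k)) v‖ ≤ (ell R * (∫ y, ‖f y‖) * cC2 B ((4 * k : ℕ) : ℝ)) * ell v := by
  have hB := h.nonneg
  have hcc := cC2_nonneg hB (Nat.cast_nonneg (4 * k))
  have hv := ell_nonneg v
  unfold Tc
  calc ‖∫ y, f y * gg (4 * k) (v + y)‖ ≤ ∫ y, ‖f y‖ * (cC2 B ((4 * k : ℕ) : ℝ) * (ell v * ell R)) := by
        apply norm_integral_le_of_norm_le (hf.norm.mul_const _)
        apply Filter.Eventually.of_forall
        intro y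
        rw [norm_mul]
        by_cases hy : R < |y|
        · rw [hs y hy]
          simp
        · apply mul_le_mul_of_nonneg_left _ (norm_nonneg _)
          refine (gg_bd' h hk (v + y)).trans ?_
          apply mul_le_mul_of_nonneg_left _ hcc
          exact (ell_add v y).trans (mul_le_mul_of_nonneg_left (ell_R hR hy) hv)
    _ = _ := by
        rw [integral_mul_const]
        ring

theorem tc_cont {f : ℝ → ℂ} {B : ℝ} {k : ℕ} (h : GB (ff mr) B) (hk : 2 ≤ k) {R : ℝ} (hR : 1 ≤ R)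
    (hf : Integrable f) (hs : ∀ y, R < |y| → f y = 0) : Continuous (Tc f (gg (4 * k))) := by
  have hB := h.nonneg
  have hcc := cC2_nonneg hB (Nat.cast_nonneg (4 * k))
  have hR0 := ell_nonneg R
  rw [continuous_iff_continuousAt]
  intro v0
  unfold Tc
  apply MeasureTheory.continuousAt_of_dominated (bound := fun y => ‖f y‖ * (cC2 B ((4 * k : ℕ) : ℝ) * (ell (|v0| + 1) * ell R)))
  · apply Filter.Eventually.of_forall
    intro v
    exact hf.1.mul ((gg_cont h (by omega)).comp (by fun_prop)).aestronglyMeasurable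
  · have hnb : ∀ᶠ v in 𝓝 v0, |v - v0| < 1 := by
      have := Metric.ball_mem_nhds v0 one_pos
      filter_upwards [this] with v hv
      rwa [Metric.mem_ball, Real.dist_eq] at hv
    filter_upwards [hnb] with v hv
    apply Filter.Eventually.of_forall
    intro y
    rw [norm_mul]
    by_cases hy : R < |y|
    · rw [hs y hy]
      simp
    · apply mul_le_mul_of_nonneg_left _ (norm_nonneg _)
      refine (gg_bd' h hk (v + y)).trans ?_
      apply mul_le_mul_of_nonneg_left _ hcc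
      refine (ell_add v y).trans ?_
      apply mul_le_mul _ (ell_R hR hy) (ell_nonneg y) (ell_nonneg _)
      apply ell_mono
      have h1 : |v| ≤ |v0| + |v - v0| := by
        calc |v| = |v0 + (v - v0)| := by congr 1; ring
          _ ≤ _ := abs_add_le _ _
      rw [abs_of_nonneg (by positivity : 0 ≤ |v0| + 1)]
      linarith
  · exact hf.norm.mul_const _
  · apply Filter.Eventually.of_forall
    intro y
    exact (continuous_const.mul ((gg_cont h (by omega)).comp (by fun_prop))).continuousAt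

end Pool.Agent.Helper66.ST
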